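import Mathlib
import Pool.Agent.Helper557.Rz.Final0
import Pool.Agent.Helper557.Rz.M_gap3

set_option autoImplicit false

open MeasureTheory

namespace Pool.Agent.Results.MP_465281_an.BorelRuziewicz

/-- Euclidean space `ℝ^(n+1)`. -/
abbrev E (n : ℕ) : Type := EuclideanSpace ℝ (Fin (n + 1))

/-- The unit sphere `S^n` of `ℝ^(n+1)`. -/
abbrev Sph (n : ℕ) : Type := Metric.sphere (0 : E n) 1

/-- The image of a subset of the sphere under a linear isometry of `ℝ^(n+1)`, that is, under an
element of `O_(n+1)(ℝ)`. -/
def img {n : ℕ} (g : E n ≃ₗᵢ[ℝ] E n) (A : Set (Sph n)) : Set (Sph n) :=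
  {y | ∃ x ∈ A, (y : E n) = g x}

/-- On the Borel subsets of `S^n` the `[0, ∞]`-valued set function `μ` is a finitely additive,
isometry-invariant measure of total mass `1`. (Its values on other sets are irrelevant.) -/
structure IsInvariantFA {n : ℕ} (μ : Set (Sph n) → ENNReal) : Prop where
  empty : μ ∅ = 0
  add : ∀ A B : Set (Sph n), MeasurableSet A → MeasurableSet B → Disjoint A B →
    μ (A ∪ B) = μ A + μ B
  invariant : ∀ (g : E n ≃ₗᵢ[ℝ] E n) (A : Set (Sph n)), MeasurableSet A → μ (img g A) = μ A
  total : μ Set.univ = 1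

/-- Mathlib's surface measure on `S^n` (not normalised). -/
noncomputable def surf (n : ℕ) : Measure (Sph n) := (volume : Measure (E n)).toSphere

/-- **Borel Ruziewicz problem for spheres.** Let `n ≥ 2` and let `μ` be a `[0, ∞]`-valued set
function on the unit sphere `S^n` of `ℝ^(n+1)`. Then `μ` is, on the Borel sets, a finitely additive,
isometry-invariant measure of total mass `1` if and only if `μ` agrees on all Borel sets with the
normalised surface (Lebesgue) measure. -/
theorem result (n : ℕ) (hn : 2 ≤ n) (μ : Set (Sph n) → ENNReal) :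
    IsInvariantFA μ ↔
      ∀ A : Set (Sph n), MeasurableSet A → μ A = surf n A / surf n Set.univ := by
  have h := Pool.Agent.Helper557.Rz.iff_of_gap3 Pool.Agent.Helper557.Rz.gap3 (n + 1) (by omega) μ
  constructor
  · intro hm
    exact h.1 ⟨hm.empty, hm.add, hm.invariant, hm.total⟩
  · intro hm
    obtain ⟨h1, h2, h3, h4⟩ := h.2 hm
    exact ⟨h1, h2, h3, h4⟩

end Pool.Agent.Results.MP_465281_an.BorelRuziewicz
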